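import Mathlib

/-!
# Differences and translations: the counting part

`B ⊆ [0, 2 N]`, `U ⊆ [0, N]`, translations by `x ∈ [-N, N]`.
-/

set_option autoImplicit false

namespace Pool.Agent.P8H34.SF

open Finset

noncomputable section

/-- The number of the `b ∈ B` with `b + d ∈ B`. -/
def fr (B : Finset ℤ) (d : ℤ) : ℕ := (B.filter (fun b => b + d ∈ B)).card

/-- The additive energy of `B`. -/
def En (B : Finset ℤ) : ℕ := ∑ b ∈ B, ∑ c ∈ B, fr B (b - c)

lemma fr_neg (B : Finset ℤ) (d : ℤ) : fr B (-d) = fr B d := by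
  unfold fr
  refine Finset.card_nbij' (fun b => b - d) (fun b => b + d) ?_ ?_ ?_ ?_
  · intro b hb
    simp only [coe_filter, Set.mem_ofPred_eq] at hb ⊢
    refine ⟨by rw [sub_eq_add_neg]; exact hb.2, by simpa using hb.1⟩
  · intro b hb
    simp only [coe_filter, Set.mem_ofPred_eq] at hb ⊢
    exact ⟨hb.2, by simpa using hb.1⟩
  · intro b _
    simp
  · intro b _
    simp

/-- windows of translations -/
abbrev Wn (N : ℕ) : Finset ℤ := Icc (-(N : ℤ)) N

lemma card_Wn (N : ℕ) : (Wn N).card = 2 * N + 1 := by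
  rw [Int.card_Icc]; omega

/-- The number of the `x` in the window with `x + y ∈ B` and `x + z ∈ B`. -/
def cod (N : ℕ) (B : Finset ℤ) (y z : ℤ) : ℕ := ((Wn N).filter (fun x => x + y ∈ B ∧ x + z ∈ B)).card

lemma cod_comm (N : ℕ) (B : Finset ℤ) (y z : ℤ) : cod N B y z = cod N B z y := by
  unfold cod
  congr 1
  ext x
  simp only [mem_filter]
  tauto

lemma cod_le (N : ℕ) (B : Finset ℤ) (y z : ℤ) : cod N B y z ≤ fr B (y - z) := by
  unfold fr cod
  refine Finset.card_le_card_of_injOn (fun x => x + z) ?_ ?_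
  · intro x hx
    simp only [coe_filter, Set.mem_ofPred_eq] at hx ⊢
    refine ⟨hx.2.2, ?_⟩
    have : x + z + (y - z) = x + y := by ring
    rw [this]; exact hx.2.1
  · intro x _ x' _ h
    simpa using h

lemma card_tr (N : ℕ) (B : Finset ℤ) {y : ℤ} (hy : y ∈ Icc (0 : ℤ) N) :
    (B ∩ Icc (0 : ℤ) N).card ≤ ((Wn N).filter (fun x => x + y ∈ B)).card := by
  refine Finset.card_le_card_of_injOn (fun b => b - y) ?_ ?_
  · intro b hb
    rw [mem_coe, mem_inter, mem_Icc] at hb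
    rw [mem_Icc] at hy
    simp only [coe_filter, Set.mem_ofPred_eq, mem_Icc]
    refine ⟨⟨by omega, by omega⟩, ?_⟩
    simpa using hb.1
  · intro x _ x' _ h
    simpa using h

/-- first moment -/
lemma sum1 (N : ℕ) (B : Finset ℤ) {U : Finset ℤ} (hU : U ⊆ Icc (0 : ℤ) N) :
    (B ∩ Icc (0 : ℤ) N).card * U.card ≤ ∑ x ∈ Wn N, (U.filter (fun y => x + y ∈ B)).card := by
  have h1 : ∀ x : ℤ, (U.filter (fun y => x + y ∈ B)).card = ∑ y ∈ U, if x + y ∈ B then 1 else 0 := by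
    intro x; rw [card_filter]
  simp_rw [h1]
  rw [sum_comm]
  have h2 : ∀ y ∈ U, (B ∩ Icc (0 : ℤ) N).card ≤ ∑ x ∈ Wn N, (if x + y ∈ B then 1 else 0) := by
    intro y hy
    rw [← card_filter]
    exact card_tr N B (hU hy)
  refine le_trans ?_ (sum_le_sum h2)
  rw [sum_const, smul_eq_mul, mul_comm]

/-- second moment, restricted to a set of differences -/
lemma sum2 (N : ℕ) (B U : Finset ℤ) (H : ℤ → Prop) [DecidablePred H] :
    ∑ x ∈ Wn N, ((U ×ˢ U).filter (fun p => (x + p.1 ∈ B ∧ x + p.2 ∈ B) ∧ H (p.1 - p.2))).card =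
      ∑ p ∈ (U ×ˢ U).filter (fun p => H (p.1 - p.2)), cod N B p.1 p.2 := by
  have h1 : ∀ x : ℤ, ((U ×ˢ U).filter (fun p => (x + p.1 ∈ B ∧ x + p.2 ∈ B) ∧ H (p.1 - p.2))).card =
      ∑ p ∈ (U ×ˢ U).filter (fun p => H (p.1 - p.2)), if x + p.1 ∈ B ∧ x + p.2 ∈ B then 1 else 0 := by
    intro x
    rw [← card_filter, filter_filter]
    congr 1
    ext p
    simp only [mem_filter]
    tauto
  simp_rw [h1]
  rw [sum_comm]
  refine sum_congr rfl (fun p _ => ?_)
  rw [← card_filter]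
  rfl

lemma sum2' (N : ℕ) (B U : Finset ℤ) :
    ∑ x ∈ Wn N, (U.filter (fun y => x + y ∈ B)).card ^ 2 = ∑ p ∈ U ×ˢ U, cod N B p.1 p.2 := by
  have h := sum2 N B U (fun _ => True)
  simp only [and_true, filter_true] at h
  rw [← h]
  refine sum_congr rfl (fun x _ => ?_)
  rw [sq, ← card_product]
  congr 1
  ext p
  simp only [mem_product, mem_filter]
  tauto

/-- the number of pairs of elements of `B` with difference in `H` -/
lemma heavy_le (N : ℕ) (B U : Finset ℤ) (H : ℤ → Prop) [DecidablePred H] :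
    ∑ p ∈ (U ×ˢ U).filter (fun p => H (p.1 - p.2)), cod N B p.1 p.2 ≤
      (2 * N + 1) * ((B ×ˢ B).filter (fun p => H (p.1 - p.2))).card := by
  rw [← sum2 N B U H, ← card_Wn N, ← smul_eq_mul, ← sum_const]
  refine sum_le_sum (fun x _ => ?_)
  refine card_le_card_of_injOn (fun p => (x + p.1, x + p.2)) ?_ ?_
  · intro p hp
    simp only [coe_filter, Set.mem_ofPred_eq, mem_product] at hp ⊢
    refine ⟨hp.2.1, ?_⟩
    have : x + p.1 - (x + p.2) = p.1 - p.2 := by ring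
    rw [this]; exact hp.2.2
  · intro p _ q _ h
    simp only [Prod.mk.injEq, add_right_inj] at h
    exact Prod.ext h.1 h.2

lemma En_eq (B : Finset ℤ) : En B = ∑ p ∈ B ×ˢ B, fr B (p.1 - p.2) := by
  unfold En; rw [sum_product]

/-- few pairs with a popular difference -/
lemma popular_le (B : Finset ℤ) {L : ℝ} :
    (((B ×ˢ B).filter (fun p => L < (fr B (p.1 - p.2) : ℝ))).card : ℝ) * L ≤ En B := by
  rw [En_eq, Nat.cast_sum]
  calc (((B ×ˢ B).filter (fun p => L < (fr B (p.1 - p.2) : ℝ))).card : ℝ) * L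
      = ∑ p ∈ (B ×ˢ B).filter (fun p => L < (fr B (p.1 - p.2) : ℝ)), L := by
        rw [sum_const, nsmul_eq_mul]
    _ ≤ ∑ p ∈ (B ×ˢ B).filter (fun p => L < (fr B (p.1 - p.2) : ℝ)), (fr B (p.1 - p.2) : ℝ) := by
        refine sum_le_sum (fun p hp => ?_)
        exact (mem_filter.1 hp).2.le
    _ ≤ ∑ p ∈ B ×ˢ B, (fr B (p.1 - p.2) : ℝ) := by
        refine sum_le_sum_of_subset_of_nonneg (filter_subset _ _) (fun _ _ _ => Nat.cast_nonneg _)

/-- Cauchy-Schwarz -/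
lemma cs (N : ℕ) (B : Finset ℤ) {U : Finset ℤ} (hU : U ⊆ Icc (0 : ℤ) N) :
    (((B ∩ Icc (0 : ℤ) N).card : ℝ) * U.card) ^ 2 ≤ (2 * N + 1) * ∑ p ∈ U ×ˢ U, (cod N B p.1 p.2 : ℝ) := by
  have h1 := sum1 N B hU
  have h2 := sum2' N B U
  have h3 : (∑ x ∈ Wn N, ((U.filter (fun y => x + y ∈ B)).card : ℝ)) ^ 2 ≤
      (Wn N).card * ∑ x ∈ Wn N, ((U.filter (fun y => x + y ∈ B)).card : ℝ) ^ 2 :=
    sq_sum_le_card_mul_sum_sq
  rw [card_Wn] at h3
  have h1' : ((B ∩ Icc (0 : ℤ) N).card : ℝ) * U.card ≤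
      (∑ x ∈ Wn N, ((U.filter (fun y => x + y ∈ B)).card : ℝ)) := by
    exact_mod_cast h1
  have h2' : (∑ x ∈ Wn N, ((U.filter (fun y => x + y ∈ B)).card : ℝ) ^ 2) =
      ∑ p ∈ U ×ˢ U, (cod N B p.1 p.2 : ℝ) := by
    exact_mod_cast h2
  rw [h2'] at h3
  push_cast at h3
  exact (pow_le_pow_left₀ (by positivity) h1' 2).trans h3

/-- the sum over the light pairs -/
lemma light_sum (N : ℕ) (B : Finset ℤ) {U : Finset ℤ} (hU : U ⊆ Icc (0 : ℤ) N)
    {L : ℝ} (hL : 0 < L) :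
    (((B ∩ Icc (0 : ℤ) N).card : ℝ) * U.card) ^ 2 / (2 * N + 1) - (B.card : ℝ) * U.card -
        (2 * N + 1) * En B / L ≤
      ∑ p ∈ (U ×ˢ U).filter (fun p => p.1 ≠ p.2 ∧ (fr B (p.1 - p.2) : ℝ) ≤ L), (cod N B p.1 p.2 : ℝ) := by
  have hM : (0 : ℝ) < 2 * N + 1 := by positivity
  have h1 := cs N B hU
  have h2 : ∑ p ∈ U ×ˢ U, (cod N B p.1 p.2 : ℝ) ≤
      (∑ p ∈ (U ×ˢ U).filter (fun p => p.1 = p.2), (cod N B p.1 p.2 : ℝ)) +
      (∑ p ∈ (U ×ˢ U).filter (fun p => L < (fr B (p.1 - p.2) : ℝ)), (cod N B p.1 p.2 : ℝ)) +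
      ∑ p ∈ (U ×ˢ U).filter (fun p => p.1 ≠ p.2 ∧ (fr B (p.1 - p.2) : ℝ) ≤ L), (cod N B p.1 p.2 : ℝ) := by
    rw [sum_filter, sum_filter, sum_filter, ← sum_add_distrib, ← sum_add_distrib]
    refine sum_le_sum (fun p _ => ?_)
    have h0 : (0 : ℝ) ≤ (cod N B p.1 p.2 : ℝ) := Nat.cast_nonneg _
    by_cases ha : p.1 = p.2
    · rw [if_pos ha]
      split_ifs <;> linarith
    · rw [if_neg ha]
      by_cases hb : L < (fr B (p.1 - p.2) : ℝ)
      · rw [if_pos hb]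
        split_ifs <;> linarith
      · rw [if_neg hb, if_pos ⟨ha, not_lt.1 hb⟩]
        linarith
  have h3 : (∑ p ∈ (U ×ˢ U).filter (fun p => p.1 = p.2), (cod N B p.1 p.2 : ℝ)) ≤
      (B.card : ℝ) * U.card := by
    have h4 : ∀ p ∈ (U ×ˢ U).filter (fun p => p.1 = p.2), (cod N B p.1 p.2 : ℝ) ≤ B.card := by
      intro p hp
      have h5 := cod_le N B p.1 p.2
      rw [(mem_filter.1 hp).2, sub_self] at h5
      have h6 : fr B 0 = B.card := by unfold fr; simp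
      rw [h6] at h5
      rw [(mem_filter.1 hp).2]
      exact_mod_cast h5
    refine (sum_le_sum h4).trans ?_
    rw [sum_const, nsmul_eq_mul, mul_comm]
    refine mul_le_mul_of_nonneg_left ?_ (Nat.cast_nonneg _)
    have h7 : ((U ×ˢ U).filter (fun p => p.1 = p.2)).card ≤ U.card := by
      refine Finset.card_le_card_of_injOn (fun p => p.1) ?_ ?_
      · intro p hp
        simp only [coe_filter, mem_product, Set.mem_ofPred_eq] at hp
        exact hp.1.1
      · intro p hp q hq h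
        simp only [coe_filter, mem_product, Set.mem_ofPred_eq] at hp hq h
        exact Prod.ext h (by rw [← hp.2, ← hq.2, h])
    exact_mod_cast h7
  have h5 : (∑ p ∈ (U ×ˢ U).filter (fun p => L < (fr B (p.1 - p.2) : ℝ)), (cod N B p.1 p.2 : ℝ)) ≤
      (2 * N + 1) * En B / L := by
    have h6 := heavy_le N B U (fun d => L < (fr B d : ℝ))
    have h7 := popular_le B (L := L)
    have h6' : (∑ p ∈ (U ×ˢ U).filter (fun p => L < (fr B (p.1 - p.2) : ℝ)), (cod N B p.1 p.2 : ℝ)) ≤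
        (2 * N + 1) * (((B ×ˢ B).filter (fun p => L < (fr B (p.1 - p.2) : ℝ))).card : ℝ) := by
      exact_mod_cast h6
    refine h6'.trans ?_
    rw [mul_div_assoc]
    refine mul_le_mul_of_nonneg_left ?_ hM.le
    rw [le_div_iff₀ hL]
    exact h7
  have h8 : (((B ∩ Icc (0 : ℤ) N).card : ℝ) * U.card) ^ 2 / (2 * N + 1) ≤
      ∑ p ∈ U ×ˢ U, (cod N B p.1 p.2 : ℝ) := by
    rw [div_le_iff₀ hM]
    linarith
  linarith

/-- The light neighbours of `y` in `U`. -/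
def lt' (N : ℕ) (B U : Finset ℤ) (L : ℝ) (y : ℤ) : Finset ℤ :=
  {z ∈ U | z ≠ y ∧ 1 ≤ cod N B z y ∧ (fr B (z - y) : ℝ) ≤ L}

/-- some `y` has many light neighbours -/
lemma exists_light (N : ℕ) (B : Finset ℤ) {U : Finset ℤ} (hU : U ⊆ Icc (0 : ℤ) N)
    {L : ℝ} (hL : 0 < L) {s : ℝ}
    (hs : s * U.card * L ≤ (((B ∩ Icc (0 : ℤ) N).card : ℝ) * U.card) ^ 2 / (2 * N + 1) -
      (B.card : ℝ) * U.card - (2 * N + 1) * En B / L) (hU0 : U.Nonempty) :
    ∃ y ∈ U, s ≤ ((lt' N B U L y).card : ℝ) := by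
  by_contra hcon
  push Not at hcon
  have h1 := light_sum N B hU hL
  have h2 : ∑ p ∈ (U ×ˢ U).filter (fun p => p.1 ≠ p.2 ∧ (fr B (p.1 - p.2) : ℝ) ≤ L),
      (cod N B p.1 p.2 : ℝ) ≤ ∑ y ∈ U, ((lt' N B U L y).card : ℝ) * L := by
    rw [sum_filter, sum_product_right]
    refine sum_le_sum (fun y _ => ?_)
    have h3 : ((lt' N B U L y).card : ℝ) * L = ∑ z ∈ U, if (z ≠ y ∧ 1 ≤ cod N B z y ∧ (fr B (z - y) : ℝ) ≤ L)
        then L else 0 := by
      rw [← sum_filter, sum_const, nsmul_eq_mul]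
      rfl
    rw [h3]
    refine sum_le_sum (fun z _ => ?_)
    by_cases ha : z ≠ y ∧ (fr B (z - y) : ℝ) ≤ L
    · rw [if_pos ha]
      by_cases hb : 1 ≤ cod N B z y
      · rw [if_pos ⟨ha.1, hb, ha.2⟩]
        have h4 : (cod N B z y : ℝ) ≤ fr B (z - y) := by exact_mod_cast cod_le N B z y
        exact h4.trans ha.2
      · have h0 : cod N B z y = 0 := by omega
        simp only [h0, Nat.cast_zero]
        split_ifs <;> simp [hL.le]
    · rw [if_neg ha]
      split_ifs <;> simp [hL.le]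
  have h4 : ∑ y ∈ U, ((lt' N B U L y).card : ℝ) * L < ∑ y ∈ U, s * L := by
    refine sum_lt_sum_of_nonempty hU0 (fun y hy => ?_)
    exact mul_lt_mul_of_pos_right (hcon y hy) hL
  rw [sum_const, nsmul_eq_mul] at h4
  have h5 : (U.card : ℝ) * (s * L) = s * U.card * L := by ring
  linarith

end

end Pool.Agent.P8H34.SF
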