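import Mathlib

/-!
# Traces of translates: definitions for `MP_491344_nt.ShatterFunctions`
-/

set_option autoImplicit false

namespace Pool.Agent.P8H34.SF

open Filter

/-- `rep A n`: the number `1_A * 1_A (n)` of the ordered pairs of elements of `A` with sum `n`. -/
noncomputable def rep (A : Set ℕ) (n : ℕ) : ℕ := {p : ℕ × ℕ | p.1 ∈ A ∧ p.2 ∈ A ∧ p.1 + p.2 = n}.ncard

/-- `trace A Y x`: the trace on `Y` of the translate of `A` by `-x`, that is the set of the `y ∈ Y` with
`x + y ∈ A`. -/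
def trace (A : Set ℕ) (Y : Finset ℤ) (x : ℤ) : Set ℤ := {y | y ∈ Y ∧ ∃ a ∈ A, (a : ℤ) = x + y}

/-- `traces A Y`: the number of the different traces on `Y` of the translates of `A`. -/
noncomputable def traces (A : Set ℕ) (Y : Finset ℤ) : ℕ := (Set.range (trace A Y)).ncard

/-- `SmallShatter m A`: the translates of `A` have at most `m (m + 1) / 2` traces on every set of `m`
integers (the shatter function, or maximal pattern complexity, of `A` at `m` is at most
`m (m + 1) / 2`). -/
def SmallShatter (m : ℕ) (A : Set ℕ) : Prop := ∀ Y : Finset ℤ, Y.card = m → 2 * traces A Y ≤ m * (m + 1)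

/-- `Composed c m A`: for arbitrarily large `N` the set `A ∩ [1, N]` is covered by at most `N ^ c` subsets
`F i` of `A` (finite or infinite) whose translates have at most `m (m + 1) / 2` traces on every set of `m`
integers. -/
def Composed (c : ℝ) (m : ℕ) (A : Set ℕ) : Prop :=
  ∃ᶠ N : ℕ in atTop, ∃ (k : ℕ) (F : Fin k → Set ℕ), (k : ℝ) ≤ (N : ℝ) ^ c ∧ A ∩ Set.Icc 1 N ⊆ ⋃ i, F i ∧
    ∀ i, F i ⊆ A ∧ SmallShatter m (F i)

/-- The condition `|A ∩ [1, N]| ≫ √N / g(N)` of the question. -/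
def Dense (g : ℕ → ℝ) (A : Set ℕ) : Prop :=
  ∃ C : ℝ, 0 < C ∧ ∀ᶠ N : ℕ in atTop, Real.sqrt N / g N ≤ C * (A ∩ Set.Icc 1 N).ncard

end Pool.Agent.P8H34.SF
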