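import Pool.Agent.P8H34.SF.Defs

set_option autoImplicit false

namespace Pool.Agent.P8H34.SF

open Finset

open Classical in
/-- the trace as a finite set -/
noncomputable def trF (A : Set ℕ) (Y : Finset ℤ) (x : ℤ) : Finset ℤ := Y.filter (fun y => ∃ a ∈ A, (a : ℤ) = x + y)

open Classical in
lemma coe_trF (A : Set ℕ) (Y : Finset ℤ) (x : ℤ) : (trF A Y x : Set ℤ) = trace A Y x := by
  ext y
  unfold trF trace
  rw [coe_filter]

open Classical in
lemma mem_trF {A : Set ℕ} {Y : Finset ℤ} {x y : ℤ} : y ∈ trF A Y x ↔ y ∈ Y ∧ ∃ a ∈ A, (a : ℤ) = x + y := by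
  unfold trF
  rw [mem_filter]

open Classical in
/-- the set of the traces -/
noncomputable def TR (A : Set ℕ) (Y : Finset ℤ) : Finset (Finset ℤ) := Y.powerset.filter (fun s => ∃ x, trF A Y x = s)

open Classical in
lemma mem_TR {A : Set ℕ} {Y s : Finset ℤ} : s ∈ TR A Y ↔ ∃ x, trF A Y x = s := by
  unfold TR
  rw [mem_filter, mem_powerset]
  constructor
  · exact fun h => h.2
  · rintro ⟨x, rfl⟩
    exact ⟨filter_subset _ _, x, rfl⟩

lemma traces_eq (A : Set ℕ) (Y : Finset ℤ) : traces A Y = (TR A Y).card := by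
  unfold traces
  have h : Set.range (trace A Y) = (fun s : Finset ℤ => (s : Set ℤ)) '' (TR A Y : Set (Finset ℤ)) := by
    ext T
    constructor
    · rintro ⟨x, rfl⟩
      exact ⟨trF A Y x, mem_coe.2 (mem_TR.2 ⟨x, rfl⟩), coe_trF A Y x⟩
    · rintro ⟨s, hs, rfl⟩
      obtain ⟨x, rfl⟩ := mem_TR.1 (mem_coe.1 hs)
      exact ⟨x, (coe_trF A Y x).symm⟩
  rw [h, Set.ncard_image_of_injective _ Finset.coe_injective, Set.ncard_coe_finset]

lemma rep_finite (A : Set ℕ) (n : ℕ) : {p : ℕ × ℕ | p.1 ∈ A ∧ p.2 ∈ A ∧ p.1 + p.2 = n}.Finite := by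
  refine (((Set.finite_Iic n).prod (Set.finite_Iic n))).subset ?_
  rintro ⟨a, b⟩ ⟨_, _, h⟩
  simp only at h
  simp only [Set.mem_prod, Set.mem_Iic]
  omega

/-- three representations -/
lemma three_le_rep {A : Set ℕ} {a b c d : ℕ} (ha : a ∈ A) (hb : b ∈ A) (hc : c ∈ A) (hd : d ∈ A)
    (h : a + b = c + d) (h1 : a ≠ c) (h2 : a ≠ d) : 3 ≤ rep A (a + b) := by
  unfold rep
  have hfin := rep_finite A (a + b)
  by_cases hab : a = b
  · -- then `c ≠ d`
    have hsub : ({(a, b), (c, d), (d, c)} : Finset (ℕ × ℕ)) ⊆ hfin.toFinset := by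
      intro p hp
      simp only [mem_insert, mem_singleton] at hp
      rw [Set.Finite.mem_toFinset]
      rcases hp with rfl | rfl | rfl
      · exact ⟨ha, hb, rfl⟩
      · exact ⟨hc, hd, h.symm⟩
      · exact ⟨hd, hc, by simp only; omega⟩
    have hcard : ({(a, b), (c, d), (d, c)} : Finset (ℕ × ℕ)).card = 3 := by
      rw [card_eq_three]
      refine ⟨(a, b), (c, d), (d, c), ?_, ?_, ?_, rfl⟩
      · simp only [ne_eq, Prod.mk.injEq, not_and]; intro h; exact absurd h h1
      · simp only [ne_eq, Prod.mk.injEq, not_and]; intro h; exact absurd h h2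
      · simp only [ne_eq, Prod.mk.injEq, not_and]; intro h3; omega
    rw [Set.ncard_eq_toFinset_card _ hfin, ← hcard]
    exact card_le_card hsub
  · have hsub : ({(a, b), (b, a), (c, d)} : Finset (ℕ × ℕ)) ⊆ hfin.toFinset := by
      intro p hp
      simp only [mem_insert, mem_singleton] at hp
      rw [Set.Finite.mem_toFinset]
      rcases hp with rfl | rfl | rfl
      · exact ⟨ha, hb, rfl⟩
      · exact ⟨hb, ha, by simp only; omega⟩
      · exact ⟨hc, hd, h.symm⟩
    have hcard : ({(a, b), (b, a), (c, d)} : Finset (ℕ × ℕ)).card = 3 := by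
      rw [card_eq_three]
      refine ⟨(a, b), (b, a), (c, d), ?_, ?_, ?_, rfl⟩
      · simp only [ne_eq, Prod.mk.injEq, not_and]; intro h; exact absurd h hab
      · simp only [ne_eq, Prod.mk.injEq, not_and]; intro h; exact absurd h h1
      · simp only [ne_eq, Prod.mk.injEq, not_and]; intro h3; omega
    rw [Set.ncard_eq_toFinset_card _ hfin, ← hcard]
    exact card_le_card hsub

/-- Sidon sets -/
theorem sidon_traces {A : Set ℕ} (hA : ∀ n, rep A n ≤ 2) (Y : Finset ℤ) :
    2 * traces A Y ≤ Y.card * (Y.card + 1) + 2 := by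
  classical
  rw [traces_eq]
  have hsplit : (TR A Y).card = ((TR A Y).filter (fun s => s.card ≤ 1)).card +
      ((TR A Y).filter (fun s => ¬ s.card ≤ 1)).card := (card_filter_add_card_filter_not _).symm
  have h1 : ((TR A Y).filter (fun s => s.card ≤ 1)).card ≤ 1 + Y.card := by
    have hsub : (TR A Y).filter (fun s => s.card ≤ 1) ⊆ powersetCard 0 Y ∪ powersetCard 1 Y := by
      intro s hs
      rw [mem_filter] at hs
      have hsY : s ⊆ Y := by
        obtain ⟨x, rfl⟩ := mem_TR.1 hs.1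
        exact filter_subset _ _
      rw [mem_union, mem_powersetCard, mem_powersetCard]
      have : s.card = 0 ∨ s.card = 1 := by omega
      rcases this with h | h
      · exact Or.inl ⟨hsY, h⟩
      · exact Or.inr ⟨hsY, h⟩
    refine (card_le_card hsub).trans ((card_union_le _ _).trans ?_)
    rw [card_powersetCard, card_powersetCard]
    simp
  have h2 : ((TR A Y).filter (fun s => ¬ s.card ≤ 1)).card ≤ Y.card.choose 2 := by
    rw [← card_powersetCard]
    have hex : ∀ s ∈ (TR A Y).filter (fun s => ¬ s.card ≤ 1), ∃ t, t ⊆ s ∧ t.card = 2 := by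
      intro s hs
      rw [mem_filter] at hs
      exact exists_subset_card_eq (by omega)
    choose! t ht1 ht2 using hex
    refine card_le_card_of_injOn t ?_ ?_
    · intro s hs
      rw [mem_coe] at hs
      rw [mem_coe, mem_powersetCard]
      refine ⟨(ht1 s hs).trans ?_, ht2 s hs⟩
      obtain ⟨x, rfl⟩ := mem_TR.1 (mem_filter.1 hs).1
      exact filter_subset _ _
    · intro s hs s' hs' hst
      rw [mem_coe] at hs hs'
      obtain ⟨x, hx⟩ := mem_TR.1 (mem_filter.1 hs).1
      obtain ⟨x', hx'⟩ := mem_TR.1 (mem_filter.1 hs').1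
      by_cases hxx : x = x'
      · rw [← hx, ← hx', hxx]
      · exfalso
        obtain ⟨y, z, hyz, hyt⟩ := card_eq_two.1 (ht2 s hs)
        have hy : y ∈ t s := by rw [hyt]; simp
        have hz : z ∈ t s := by rw [hyt]; simp
        have hy1 := ht1 s hs hy
        have hz1 := ht1 s hs hz
        rw [hst] at hy hz
        have hy2 := ht1 s' hs' hy
        have hz2 := ht1 s' hs' hz
        rw [← hx, mem_trF] at hy1 hz1
        rw [← hx', mem_trF] at hy2 hz2
        obtain ⟨-, a, ha, hae⟩ := hy1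
        obtain ⟨-, b, hb, hbe⟩ := hz1
        obtain ⟨-, c, hc, hce⟩ := hy2
        obtain ⟨-, d, hd, hde⟩ := hz2
        -- `a = x + y`, `b = x + z`, `c = x' + y`, `d = x' + z`; `a + d = b + c`
        have h3 := three_le_rep (A := A) ha hd hb hc (by omega) (by intro h; apply hyz; omega)
          (by intro h; apply hxx; omega)
        have h4 := hA (a + d)
        omega
  have h3 : 2 * Y.card.choose 2 = Y.card * (Y.card - 1) := by
    rw [Nat.choose_two_right]
    exact Nat.mul_div_cancel' (Nat.even_mul_pred_self _).two_dvd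
  have h4 : Y.card * (Y.card - 1) + 2 * (1 + Y.card) = Y.card * (Y.card + 1) + 2 := by
    cases hc : Y.card with
    | zero => simp
    | succ k => simp only [Nat.add_sub_cancel]; ring
  omega

/-- A set all of whose subsets of at most two elements are traces has many traces. -/
theorem shatter_traces {A : Set ℕ} {Y : Finset ℤ}
    (h : ∀ S ⊆ Y, S.card ≤ 2 → ∃ x : ℤ, trace A Y x = S) :
    Y.card * (Y.card + 1) + 2 ≤ 2 * traces A Y := by
  classical
  rw [traces_eq]
  have hsub : (powersetCard 0 Y ∪ powersetCard 1 Y) ∪ powersetCard 2 Y ⊆ TR A Y := by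
    intro s hs
    rw [mem_union, mem_union, mem_powersetCard, mem_powersetCard, mem_powersetCard] at hs
    have hsY : s ⊆ Y := by rcases hs with (h1 | h1) | h1 <;> exact h1.1
    have hs2 : s.card ≤ 2 := by rcases hs with (h1 | h1) | h1 <;> omega
    obtain ⟨x, hx⟩ := h s hsY hs2
    rw [mem_TR]
    refine ⟨x, ?_⟩
    apply Finset.coe_injective
    rw [coe_trF, hx]
  have hc := card_le_card hsub
  rw [card_union_of_disjoint, card_union_of_disjoint, card_powersetCard, card_powersetCard,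
    card_powersetCard, Nat.choose_zero_right, Nat.choose_one_right] at hc
  · have h3 : 2 * Y.card.choose 2 = Y.card * (Y.card - 1) := by
      rw [Nat.choose_two_right]
      exact Nat.mul_div_cancel' (Nat.even_mul_pred_self _).two_dvd
    have h4 : Y.card * (Y.card - 1) + 2 * (1 + Y.card) = Y.card * (Y.card + 1) + 2 := by
      cases hc : Y.card with
      | zero => simp
      | succ k => simp only [Nat.add_sub_cancel]; ring
    omega
  · rw [disjoint_left]
    intro s hs hs'
    rw [mem_powersetCard] at hs hs'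
    omega
  · rw [disjoint_left]
    intro s hs hs'
    rw [mem_union, mem_powersetCard, mem_powersetCard] at hs
    rw [mem_powersetCard] at hs'
    omega

/-- The set of Erdős and Turán. -/
def ET (p : ℕ) : Set ℕ := {a | ∃ k < p, a = 2 * p * k + k ^ 2 % p + 1}

lemma ET_sub {p : ℕ} (hp : 0 < p) : ET p ⊆ Set.Icc 1 (2 * p ^ 2) := by
  rintro a ⟨k, hk, rfl⟩
  have h1 := Nat.mod_lt (k ^ 2) hp
  refine ⟨by omega, ?_⟩
  have h2 : 2 * p * k + 2 * p ≤ 2 * p ^ 2 := by
    have : 2 * p * (k + 1) ≤ 2 * p * p := Nat.mul_le_mul_left _ hk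
    calc 2 * p * k + 2 * p = 2 * p * (k + 1) := by ring
      _ ≤ 2 * p * p := this
      _ = 2 * p ^ 2 := by ring
  omega

lemma ET_ncard {p : ℕ} (hp : 0 < p) : (ET p).ncard = p := by
  have h : ET p = (fun k => 2 * p * k + k ^ 2 % p + 1) '' (Set.Iio p) := by
    ext a
    constructor
    · rintro ⟨k, hk, rfl⟩
      exact ⟨k, hk, rfl⟩
    · rintro ⟨k, hk, rfl⟩
      exact ⟨k, hk, rfl⟩
  rw [h, Set.InjOn.ncard_image]
  · rw [← Finset.coe_range, Set.ncard_coe_finset, card_range]
  · intro k hk l hl hkl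
    simp only at hkl
    have h1 := Nat.mod_lt (k ^ 2) hp
    have h2 := Nat.mod_lt (l ^ 2) hp
    rcases lt_trichotomy k l with h3 | h3 | h3
    · exfalso
      have : 2 * p * (k + 1) ≤ 2 * p * l := Nat.mul_le_mul_left _ h3
      have h4 : 2 * p * (k + 1) = 2 * p * k + 2 * p := by ring
      omega
    · exact h3
    · exfalso
      have : 2 * p * (l + 1) ≤ 2 * p * k := Nat.mul_le_mul_left _ h3
      have h4 : 2 * p * (l + 1) = 2 * p * l + 2 * p := by ring
      omega

lemma ET_sidon {p : ℕ} (hp : p.Prime) (hp2 : p ≠ 2) {a b c d : ℕ} (ha : a ∈ ET p) (hb : b ∈ ET p)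
    (hc : c ∈ ET p) (hd : d ∈ ET p) (h : a + b = c + d) : a = c ∨ a = d := by
  obtain ⟨i, hi, rfl⟩ := ha
  obtain ⟨j, hj, rfl⟩ := hb
  obtain ⟨k, hk, rfl⟩ := hc
  obtain ⟨l, hl, rfl⟩ := hd
  have hp0 := hp.pos
  have h1 := Nat.mod_lt (i ^ 2) hp0
  have h2 := Nat.mod_lt (j ^ 2) hp0
  have h3 := Nat.mod_lt (k ^ 2) hp0
  have h4 := Nat.mod_lt (l ^ 2) hp0
  have h5 : 2 * p * (i + j) + (i ^ 2 % p + j ^ 2 % p) = 2 * p * (k + l) + (k ^ 2 % p + l ^ 2 % p) := by
    have e1 : 2 * p * (i + j) = 2 * p * i + 2 * p * j := by ring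
    have e2 : 2 * p * (k + l) = 2 * p * k + 2 * p * l := by ring
    omega
  have h6 : i + j = k + l := by
    rcases lt_trichotomy (i + j) (k + l) with h | h | h
    · exfalso
      have : 2 * p * (i + j + 1) ≤ 2 * p * (k + l) := Nat.mul_le_mul_left _ h
      have h4 : 2 * p * (i + j + 1) = 2 * p * (i + j) + 2 * p := by ring
      omega
    · exact h
    · exfalso
      have : 2 * p * (k + l + 1) ≤ 2 * p * (i + j) := Nat.mul_le_mul_left _ h
      have h4 : 2 * p * (k + l + 1) = 2 * p * (k + l) + 2 * p := by ring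
      omega
  have h7 : i ^ 2 % p + j ^ 2 % p = k ^ 2 % p + l ^ 2 % p := by
    rw [h6] at h5; omega
  have := Fact.mk hp
  have h8 : ((i : ZMod p)) ^ 2 + (j : ZMod p) ^ 2 = (k : ZMod p) ^ 2 + (l : ZMod p) ^ 2 := by
    have := congrArg (fun t : ℕ => (t : ZMod p)) h7
    simp only [Nat.cast_add, ZMod.natCast_mod, Nat.cast_pow] at this
    exact this
  have h9 : (i : ZMod p) + j = k + l := by exact_mod_cast congrArg (fun t : ℕ => (t : ZMod p)) h6
  have h10 : (2 : ZMod p) * (((i : ZMod p) - k) * ((i : ZMod p) - l)) = 0 := by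
    have hj' : (j : ZMod p) = k + l - i := by rw [← h9]; ring
    rw [hj'] at h8
    linear_combination h8
  have h2ne : (2 : ZMod p) ≠ 0 := by
    intro h0
    have h01 : ((2 : ℕ) : ZMod p) = 0 := by exact_mod_cast h0
    rw [ZMod.natCast_eq_zero_iff] at h01
    exact hp2 ((Nat.prime_dvd_prime_iff_eq hp Nat.prime_two).1 h01)
  rcases mul_eq_zero.1 h10 with h0 | h0
  · exact absurd h0 h2ne
  · have key : ∀ u v : ℕ, u < p → v < p → (u : ZMod p) - v = 0 → u = v := by
      intro u v hu hv huv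
      have h11 : (u : ZMod p) = (v : ZMod p) := sub_eq_zero.1 huv
      rw [ZMod.natCast_eq_natCast_iff'] at h11
      rwa [Nat.mod_eq_of_lt hu, Nat.mod_eq_of_lt hv] at h11
    rcases mul_eq_zero.1 h0 with h0 | h0
    · left; rw [key i k hi hk h0]
    · right; rw [key i l hi hl h0]

lemma ET_rep {p : ℕ} (hp : p.Prime) (hp2 : p ≠ 2) (n : ℕ) : rep (ET p) n ≤ 2 := by
  unfold rep
  rcases Set.eq_empty_or_nonempty {q : ℕ × ℕ | q.1 ∈ ET p ∧ q.2 ∈ ET p ∧ q.1 + q.2 = n} with h | ⟨q, hq⟩
  · rw [h]; simp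
  · have hsub : {q : ℕ × ℕ | q.1 ∈ ET p ∧ q.2 ∈ ET p ∧ q.1 + q.2 = n} ⊆ {(q.1, q.2), (q.2, q.1)} := by
      rintro ⟨a, b⟩ ⟨ha, hb, hab⟩
      simp only at ha hb hab
      obtain ⟨hq1, hq2, hq3⟩ := hq
      rcases ET_sidon hp hp2 ha hb hq1 hq2 (by omega) with h | h
      · left
        exact Prod.ext h (by simp only; omega)
      · right
        exact Prod.ext h (by simp only; omega)
    refine (Set.ncard_le_ncard hsub (by simp)).trans ?_
    exact (Set.ncard_insert_le _ _).trans (by simp)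

end Pool.Agent.P8H34.SF
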