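import Pool.Agent.P8H34.SF.Greedy
import Pool.Agent.P8H34.SF.Sidon

set_option autoImplicit false

namespace Pool.Agent.P8H34.SF

open Finset Filter

/-- the energy and the numbers of representations -/
lemma En_le (B : Finset ℤ) (R : ℝ) (h : ∀ s : ℤ, ((B.filter (fun c => s - c ∈ B)).card : ℝ) ≤ R) :
    (En B : ℝ) ≤ R * (B.card : ℝ) ^ 2 := by
  have h1 : (En B : ℝ) = ∑ b ∈ B, ∑ a ∈ B, ((B.filter (fun c => (a + b) - c ∈ B)).card : ℝ) := by
    unfold En fr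
    rw [Nat.cast_sum]
    refine sum_congr rfl (fun b _ => ?_)
    rw [Nat.cast_sum]
    simp_rw [card_filter, Nat.cast_sum]
    rw [sum_comm]
    refine sum_congr rfl (fun a _ => sum_congr rfl (fun c _ => ?_))
    have : a + (b - c) = a + b - c := by ring
    rw [this]
  rw [h1]
  calc ∑ b ∈ B, ∑ a ∈ B, ((B.filter (fun c => (a + b) - c ∈ B)).card : ℝ)
      ≤ ∑ b ∈ B, ∑ a ∈ B, R := sum_le_sum (fun b _ => sum_le_sum (fun a _ => h _))
    _ = R * (B.card : ℝ) ^ 2 := by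
        rw [sum_const, sum_const, nsmul_eq_mul, nsmul_eq_mul]; ring

/-- the number of the elements and the numbers of representations -/
lemma sq_le (N : ℕ) {B : Finset ℤ} (hB : B ⊆ Icc (0 : ℤ) (2 * N)) (R : ℝ)
    (h : ∀ s : ℤ, ((B.filter (fun c => s - c ∈ B)).card : ℝ) ≤ R) :
    (B.card : ℝ) ^ 2 ≤ (4 * N + 1) * R := by
  have h1 : (B.card : ℝ) ^ 2 = ((B ×ˢ B).card : ℝ) := by
    rw [card_product]; push_cast; ring
  have h2 : (B ×ˢ B).card = ∑ s ∈ Icc (0 : ℤ) (4 * N), ((B ×ˢ B).filter (fun p => p.1 + p.2 = s)).card := by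
    refine card_eq_sum_card_fiberwise (fun p hp => ?_)
    have hp' := mem_product.1 (mem_coe.1 hp)
    have h3 := mem_Icc.1 (hB hp'.1)
    have h4 := mem_Icc.1 (hB hp'.2)
    rw [mem_coe, mem_Icc]
    constructor <;> omega
  have h3 : ∀ s ∈ Icc (0 : ℤ) (4 * N), (((B ×ˢ B).filter (fun p => p.1 + p.2 = s)).card : ℝ) ≤ R := by
    intro s _
    refine le_trans ?_ (h s)
    have h4 : ((B ×ˢ B).filter (fun p => p.1 + p.2 = s)).card ≤ (B.filter (fun c => s - c ∈ B)).card := by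
      refine card_le_card_of_injOn (fun p => p.1) ?_ ?_
      · intro p hp
        simp only [coe_filter, Set.mem_ofPred_eq, mem_product] at hp ⊢
        have : s - p.1 = p.2 := by rw [← hp.2]; ring
        exact ⟨hp.1.1, by rw [this]; exact hp.1.2⟩
      · intro p hp q hq hpq
        simp only [coe_filter, Set.mem_ofPred_eq, mem_product] at hp hq hpq
        refine Prod.ext hpq ?_
        have h5 := hp.2
        have h6 := hq.2
        omega
    exact_mod_cast h4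
  rw [h1, h2, Nat.cast_sum]
  refine (sum_le_sum h3).trans ?_
  rw [sum_const, nsmul_eq_mul, Int.card_Icc]
  have : ((4 * (N : ℤ) + 1 - 0).toNat : ℝ) = 4 * N + 1 := by
    have : (4 * (N : ℤ) + 1 - 0).toNat = 4 * N + 1 := by omega
    rw [this]; push_cast; ring
  rw [this]

lemma rep_mono {A B : Set ℕ} (h : A ⊆ B) (n : ℕ) : rep A n ≤ rep B n := by
  unfold rep
  refine Set.ncard_le_ncard ?_ (rep_finite B n)
  rintro p ⟨h1, h2, h3⟩
  exact ⟨h h1, h h2, h3⟩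

/-- Part (1). -/
theorem main1 (m : ℕ) (hm : 1 ≤ m) : ∃ c : ℝ, 0 < c ∧ ∃ N₀ : ℕ, ∀ N : ℕ, N₀ ≤ N → ∀ B : Set ℕ,
    (N : ℝ) ^ (1 / 2 - c) ≤ (B ∩ Set.Icc 1 N).ncard → (∀ n ≤ 4 * N, (rep B n : ℝ) ≤ (N : ℝ) ^ c) →
      ∃ Y : Finset ℤ, Y.card = m ∧ ∀ S ⊆ Y, S.card ≤ 2 → ∃ x : ℤ, trace B Y x = S := by
  set D : ℝ := 8 + 10 * (ex m : ℝ) with hD
  have hD8 : 8 ≤ D := by rw [hD]; have : (0 : ℝ) ≤ ex m := Nat.cast_nonneg _; linarith
  have hD0 : 0 < D := by linarith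
  refine ⟨1 / (8 * D), by positivity, ?_⟩
  have ht1 : Tendsto (fun N : ℕ => (2 * (N : ℝ) + 1) ^ (1 / D)) atTop atTop := by
    refine (tendsto_rpow_atTop (by positivity : (0 : ℝ) < 1 / D)).comp ?_
    refine tendsto_atTop_add_const_right _ _ ?_
    exact Tendsto.const_mul_atTop (by norm_num) tendsto_natCast_atTop_atTop
  have ht2 : Tendsto (fun N : ℕ => (N : ℝ) ^ (1 / (8 * D))) atTop atTop :=
    (tendsto_rpow_atTop (by positivity : (0 : ℝ) < 1 / (8 * D))).comp tendsto_natCast_atTop_atTop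
  obtain ⟨N₀, hN₀⟩ := eventually_atTop.1 (((ht1.eventually_ge_atTop (4096 * (m : ℝ) ^ 2)).and
    (ht2.eventually_ge_atTop 6)).and (eventually_ge_atTop 1))
  refine ⟨N₀, fun N hN B hcard hrep => ?_⟩
  obtain ⟨⟨hF1, hF2⟩, hF3⟩ := hN₀ N hN
  have hN1 : (1 : ℝ) ≤ N := by exact_mod_cast hF3
  have hN0 : (0 : ℝ) < N := by linarith
  have hM1 : (1 : ℝ) ≤ 2 * (N : ℝ) + 1 := by linarith
  have hM0 : (0 : ℝ) < 2 * (N : ℝ) + 1 := by linarith
  set Q : ℝ := (2 * (N : ℝ) + 1) ^ (1 / D) with hQd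
  set T : ℝ := (N : ℝ) ^ (1 / (8 * D)) with hTd
  have hT0 : 0 < T := by linarith
  have hT1 : 1 ≤ T := by linarith
  have hQ0 : 0 < Q := Real.rpow_pos_of_pos hM0 _
  have hm1 : (1 : ℝ) ≤ m := by exact_mod_cast hm
  have hQ2 : 2 ≤ Q := by
    refine le_trans ?_ hF1
    nlinarith
  have hTQ : T ^ 8 ≤ Q := by
    rw [hTd, ← Real.rpow_natCast, ← Real.rpow_mul hN0.le, hQd]
    have : 1 / (8 * D) * ((8 : ℕ) : ℝ) = 1 / D := by push_cast; field_simp
    rw [this]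
    exact Real.rpow_le_rpow hN0.le (by linarith) (by positivity)
  have hT4 : 6 * T ^ 4 ≤ Q := by
    refine le_trans ?_ hTQ
    have h1 : (6 : ℝ) ≤ T ^ 4 := by
      calc (6 : ℝ) ≤ T ^ 1 := by rw [pow_one]; exact hF2
        _ ≤ T ^ 4 := pow_le_pow_right₀ hT1 (by norm_num)
    calc 6 * T ^ 4 ≤ T ^ 4 * T ^ 4 := mul_le_mul_of_nonneg_right h1 (by positivity)
      _ = T ^ 8 := by ring
  -- the finite set of integers
  have hfin : (B ∩ Set.Icc 0 (2 * N)).Finite := (Set.finite_Icc 0 (2 * N)).subset Set.inter_subset_right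
  set F : Finset ℤ := hfin.toFinset.image (fun a : ℕ => (a : ℤ)) with hF
  have hmem : ∀ z : ℤ, z ∈ F ↔ ∃ a ∈ B, a ≤ 2 * N ∧ (a : ℤ) = z := by
    intro z
    rw [hF, mem_image]
    constructor
    · rintro ⟨a, ha, rfl⟩
      have ha' := hfin.mem_toFinset.1 ha
      exact ⟨a, ha'.1, ha'.2.2, rfl⟩
    · rintro ⟨a, ha, ha2, rfl⟩
      exact ⟨a, hfin.mem_toFinset.2 ⟨ha, Nat.zero_le _, ha2⟩, rfl⟩
  have hFsub : F ⊆ Icc (0 : ℤ) (2 * N) := by
    intro z hz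
    obtain ⟨a, ha, ha2, rfl⟩ := (hmem z).1 hz
    rw [mem_Icc]
    constructor <;> omega
  have hFc : (B ∩ Set.Icc 1 N).ncard ≤ (F ∩ Icc (0 : ℤ) N).card := by
    have hfin1 : (B ∩ Set.Icc 1 N).Finite := (Set.finite_Icc 1 N).subset Set.inter_subset_right
    rw [Set.ncard_eq_toFinset_card _ hfin1]
    refine card_le_card_of_injOn (fun a : ℕ => (a : ℤ)) ?_ (fun a _ b _ hab => by simpa using hab)
    intro a ha
    have ha' := hfin1.mem_toFinset.1 (mem_coe.1 ha)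
    have ha2 := ha'.2
    rw [Set.mem_Icc] at ha2
    rw [mem_coe, mem_inter, hmem, mem_Icc]
    have e1 : (0 : ℤ) ≤ (a : ℤ) := by omega
    have e2 : (a : ℤ) ≤ (N : ℤ) := by omega
    exact ⟨⟨a, ha'.1, by omega, rfl⟩, e1, e2⟩
  have hrF : ∀ s : ℤ, ((F.filter (fun c => s - c ∈ F)).card : ℝ) ≤ T := by
    intro s
    rcases (F.filter (fun c => s - c ∈ F)).eq_empty_or_nonempty with h0 | ⟨c0, hc0⟩
    · rw [h0]; simp [hT0.le]
    have hs : s.toNat ≤ 4 * N := by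
      rw [mem_filter] at hc0
      have h1 := mem_Icc.1 (hFsub hc0.1)
      have h2 := mem_Icc.1 (hFsub hc0.2)
      omega
    refine le_trans ?_ (hrep s.toNat hs)
    have h1 : (F.filter (fun c => s - c ∈ F)).card ≤ rep B s.toNat := by
      unfold rep
      rw [Set.ncard_eq_toFinset_card _ (rep_finite B s.toNat)]
      refine card_le_card_of_injOn (fun c : ℤ => (c.toNat, (s - c).toNat)) ?_ ?_
      · intro c hc
        simp only [coe_filter, Set.mem_ofPred_eq] at hc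
        obtain ⟨a, ha, -, hac⟩ := (hmem c).1 hc.1
        obtain ⟨b, hb, -, hbc⟩ := (hmem (s - c)).1 hc.2
        rw [mem_coe, Set.Finite.mem_toFinset]
        have e1 : c.toNat = a := by omega
        have e2 : (s - c).toNat = b := by omega
        refine ⟨?_, ?_, ?_⟩
        · simp only; rw [e1]; exact ha
        · simp only; rw [e2]; exact hb
        · simp only; omega
      · intro c hc c' hc' hcc
        simp only [coe_filter, Set.mem_ofPred_eq] at hc hc'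
        obtain ⟨a, ha, -, hac⟩ := (hmem c).1 hc.1
        obtain ⟨a', ha', -, hac'⟩ := (hmem c').1 hc'.1
        simp only [Prod.mk.injEq] at hcc
        omega
    exact_mod_cast h1
  have hsq := sq_le N hFsub T hrF
  have hEn := En_le F T hrF
  set n0 : ℝ := ((F ∩ Icc (0 : ℤ) N).card : ℝ) with hn0d
  -- `N ≤ T^2 n0^2`
  have hNn : (N : ℝ) ≤ T ^ 2 * n0 ^ 2 := by
    have h1 : (N : ℝ) ^ (1 / 2 - 1 / (8 * D)) ≤ n0 := by
      refine hcard.trans ?_
      rw [hn0d]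
      exact_mod_cast hFc
    have h2 : (N : ℝ) ^ (1 / 2 - 1 / (8 * D)) * T = (N : ℝ) ^ (1 / 2 : ℝ) := by
      rw [hTd, ← Real.rpow_add hN0]
      congr 1
      ring
    have h3 : ((N : ℝ) ^ (1 / 2 : ℝ)) ^ 2 = N := by
      rw [← Real.rpow_natCast, ← Real.rpow_mul hN0.le]
      norm_num
    calc (N : ℝ) = ((N : ℝ) ^ (1 / 2 - 1 / (8 * D)) * T) ^ 2 := by rw [h2, h3]
      _ ≤ (n0 * T) ^ 2 := by
          refine pow_le_pow_left₀ (mul_nonneg (Real.rpow_nonneg hN0.le _) hT0.le) ?_ 2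
          exact mul_le_mul_of_nonneg_right h1 hT0.le
      _ = T ^ 2 * n0 ^ 2 := by ring
  have hn02 : 0 ≤ n0 ^ 2 := sq_nonneg _
  have hT24 : T ^ 2 ≤ T ^ 4 := pow_le_pow_right₀ hT1 (by norm_num)
  have hT14 : T ≤ T ^ 4 := by
    calc T = T ^ 1 := (pow_one T).symm
      _ ≤ T ^ 4 := pow_le_pow_right₀ hT1 (by norm_num)
  have hn : (2 * (N : ℝ) + 1) ≤ Q * n0 ^ 2 := by
    calc (2 * (N : ℝ) + 1) ≤ 3 * N := by linarith
      _ ≤ 3 * (T ^ 2 * n0 ^ 2) := by linarith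
      _ = (3 * T ^ 2) * n0 ^ 2 := by ring
      _ ≤ Q * n0 ^ 2 := by
          refine mul_le_mul_of_nonneg_right ?_ hn02
          have : 0 < T ^ 4 := by positivity
          linarith
  have hE : (En F : ℝ) ≤ Q * n0 ^ 2 := by
    calc (En F : ℝ) ≤ T * (F.card : ℝ) ^ 2 := hEn
      _ ≤ T * ((4 * N + 1) * T) := mul_le_mul_of_nonneg_left hsq hT0.le
      _ = T ^ 2 * (4 * N + 1) := by ring
      _ ≤ T ^ 2 * (6 * N) := mul_le_mul_of_nonneg_left (by linarith) (by positivity)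
      _ ≤ T ^ 2 * (6 * (T ^ 2 * n0 ^ 2)) := mul_le_mul_of_nonneg_left (by linarith) (by positivity)
      _ = (6 * T ^ 4) * n0 ^ 2 := by ring
      _ ≤ Q * n0 ^ 2 := mul_le_mul_of_nonneg_right hT4 hn02
  have hn2 : (F.card : ℝ) ^ 2 ≤ (2 * N + 1) * Q := by
    refine hsq.trans ?_
    calc (4 * (N : ℝ) + 1) * T ≤ ((2 * N + 1) * 2) * T := mul_le_mul_of_nonneg_right (by linarith) hT0.le
      _ = (2 * N + 1) * (2 * T) := by ring
      _ ≤ (2 * N + 1) * Q := by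
          refine mul_le_mul_of_nonneg_left ?_ hM0.le
          linarith
  have hbig : 4096 * (m : ℝ) ^ 2 * Q ^ (7 + 10 * ex m) ≤ 2 * N + 1 := by
    have h1 : Q ^ (8 + 10 * ex m) = 2 * (N : ℝ) + 1 := by
      rw [hQd, ← Real.rpow_natCast, ← Real.rpow_mul hM0.le]
      have : 1 / D * ((8 + 10 * ex m : ℕ) : ℝ) = 1 := by
        push_cast
        rw [hD]
        field_simp
      rw [this, Real.rpow_one]
    calc 4096 * (m : ℝ) ^ 2 * Q ^ (7 + 10 * ex m) ≤ Q * Q ^ (7 + 10 * ex m) :=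
          mul_le_mul_of_nonneg_right hF1 (by positivity)
      _ = Q ^ (8 + 10 * ex m) := by ring
      _ = 2 * N + 1 := h1
  obtain ⟨Y, hYc, hYN, hY⟩ := two_shatter N (fun b hb => (mem_Icc.1 (hFsub hb)).1) hQ2 hm hE hn hn2 hbig
  refine ⟨Y, hYc, fun S hS hS2 => ?_⟩
  obtain ⟨x, hxN, hx⟩ := hY S hS hS2
  refine ⟨x, ?_⟩
  rw [hx]
  ext y
  unfold trace
  rw [coe_filter, Set.mem_ofPred_eq, Set.mem_ofPred_eq, hmem]
  constructor
  · rintro ⟨hy, a, ha, hay⟩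
    have := mem_Icc.1 (hYN hy)
    exact ⟨hy, a, ha, by omega, hay⟩
  · rintro ⟨hy, a, ha, -, hay⟩
    exact ⟨hy, a, ha, hay⟩

/-- Part (2). -/
theorem main2 (m : ℕ) (hm : 1 ≤ m) : ∃ c : ℝ, 0 < c ∧ ∀ g : ℕ → ℝ,
    (∀ᶠ N : ℕ in atTop, 0 < g N ∧ g N ≤ (N : ℝ) ^ c) → ∀ A : Set ℕ, Dense g A → Composed c m A →
      ∃ᶠ N : ℕ in atTop, ∃ n ≤ 4 * N, (N : ℝ) ^ c < rep A n := by
  obtain ⟨c, hc, N₀, hN₀⟩ := main1 m hm
  refine ⟨c / 4, by positivity, fun g hg A hA hcomp => ?_⟩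
  obtain ⟨C, hC, hdense⟩ := hA
  have ht : Tendsto (fun N : ℕ => (N : ℝ) ^ (c / 2)) atTop atTop :=
    (tendsto_rpow_atTop (by positivity : (0 : ℝ) < c / 2)).comp tendsto_natCast_atTop_atTop
  have hev := ((hg.and hdense).and (ht.eventually_ge_atTop C)).and
    ((eventually_ge_atTop 1).and (eventually_ge_atTop N₀))
  refine (hcomp.and_eventually hev).mono ?_
  rintro N ⟨⟨k, F, hk, hAF, hF⟩, ⟨⟨⟨hg0, hgN⟩, hd⟩, hCN⟩, hN1, hNN₀⟩
  have hN1' : (1 : ℝ) ≤ N := by exact_mod_cast hN1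
  have hN0 : (0 : ℝ) < N := by linarith
  have hFfin : ∀ i, (F i ∩ Set.Icc 1 N).Finite := fun i =>
    (Set.finite_Icc 1 N).subset Set.inter_subset_right
  -- a large piece
  have hlarge : ∃ i, (N : ℝ) ^ (1 / 2 - c) ≤ (F i ∩ Set.Icc 1 N).ncard := by
    by_contra hcon
    push Not at hcon
    have h1 : ((A ∩ Set.Icc 1 N).ncard : ℝ) ≤ ∑ i, ((F i ∩ Set.Icc 1 N).ncard : ℝ) := by
      have h2 : (A ∩ Set.Icc 1 N).ncard ≤ ∑ i, (F i ∩ Set.Icc 1 N).ncard := by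
        have h3 : A ∩ Set.Icc 1 N ⊆ ((univ.biUnion (fun i => (hFfin i).toFinset) : Finset ℕ) : Set ℕ) := by
          intro a ha
          obtain ⟨i, hi⟩ := Set.mem_iUnion.1 (hAF ha)
          rw [mem_coe, mem_biUnion]
          exact ⟨i, mem_univ _, (hFfin i).mem_toFinset.2 ⟨hi, ha.2⟩⟩
        refine (Set.ncard_le_ncard h3 (Finset.finite_toSet _)).trans ?_
        rw [Set.ncard_coe_finset]
        refine card_biUnion_le.trans (le_of_eq (sum_congr rfl (fun i _ => ?_)))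
        rw [Set.ncard_eq_toFinset_card _ (hFfin i)]
      exact_mod_cast h2
    have h5 : Real.sqrt N / (N : ℝ) ^ (c / 4) ≤ C * (A ∩ Set.Icc 1 N).ncard := by
      refine le_trans ?_ hd
      exact div_le_div_of_nonneg_left (Real.sqrt_nonneg _) hg0 hgN
    have h6 : Real.sqrt N / (N : ℝ) ^ (c / 4) = (N : ℝ) ^ (1 / 2 - c / 4) := by
      rw [Real.sqrt_eq_rpow, Real.rpow_sub hN0]
    have hkpos : 0 < k := by
      rcases Nat.eq_zero_or_pos k with h0 | h0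
      · exfalso
        subst h0
        have h7 : ((A ∩ Set.Icc 1 N).ncard : ℝ) ≤ 0 := by
          refine h1.trans ?_
          simp
        have h8 : 0 < (N : ℝ) ^ (1 / 2 - c / 4) := Real.rpow_pos_of_pos hN0 _
        rw [h6] at h5
        nlinarith
      · exact h0
    -- strict inequality
    have h4' : ∑ i, ((F i ∩ Set.Icc 1 N).ncard : ℝ) < (k : ℝ) * (N : ℝ) ^ (1 / 2 - c) := by
      have : ∑ i : Fin k, ((F i ∩ Set.Icc 1 N).ncard : ℝ) < ∑ _i : Fin k, (N : ℝ) ^ (1 / 2 - c) := by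
        refine sum_lt_sum_of_nonempty ?_ (fun i _ => hcon i)
        exact ⟨⟨0, hkpos⟩, mem_univ _⟩
      rw [sum_const, nsmul_eq_mul, card_univ, Fintype.card_fin] at this
      exact this
    have h9 : (N : ℝ) ^ (1 / 2 - c / 4) < C * ((N : ℝ) ^ (c / 4) * (N : ℝ) ^ (1 / 2 - c)) := by
      rw [← h6]
      refine h5.trans_lt (mul_lt_mul_of_pos_left ?_ hC)
      refine (h1.trans_lt h4').trans_le ?_
      exact mul_le_mul_of_nonneg_right hk (Real.rpow_nonneg hN0.le _)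
    have h10 : C * ((N : ℝ) ^ (c / 4) * (N : ℝ) ^ (1 / 2 - c)) ≤
        (N : ℝ) ^ (c / 2) * ((N : ℝ) ^ (c / 4) * (N : ℝ) ^ (1 / 2 - c)) :=
      mul_le_mul_of_nonneg_right hCN (by positivity)
    have h11 : (N : ℝ) ^ (c / 2) * ((N : ℝ) ^ (c / 4) * (N : ℝ) ^ (1 / 2 - c)) =
        (N : ℝ) ^ (1 / 2 - c / 4) := by
      rw [← Real.rpow_add hN0, ← Real.rpow_add hN0]
      congr 1
      ring
    linarith
  obtain ⟨i, hi⟩ := hlarge
  have h12 : ∃ n ≤ 4 * N, (N : ℝ) ^ c < rep (F i) n := by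
    by_contra hcon
    push Not at hcon
    obtain ⟨Y, hYc, hY⟩ := hN₀ N hNN₀ (F i) hi hcon
    have h13 := shatter_traces hY
    have h14 := (hF i).2 Y hYc
    rw [hYc] at h13
    omega
  obtain ⟨n, hn4, hn⟩ := h12
  refine ⟨n, hn4, ?_⟩
  have h15 : (N : ℝ) ^ (c / 4) ≤ (N : ℝ) ^ c := Real.rpow_le_rpow_of_exponent_le hN1' (by linarith)
  have h16 : (rep (F i) n : ℝ) ≤ rep A n := by
    exact_mod_cast rep_mono (hF i).1 n
  linarith

/-- The case of one piece. -/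
theorem main3 (m : ℕ) (hm : 1 ≤ m) : ∃ c : ℝ, 0 < c ∧ ∀ g : ℕ → ℝ,
    (∀ᶠ N : ℕ in atTop, 0 < g N ∧ g N ≤ (N : ℝ) ^ c) → ∀ A : Set ℕ, Dense g A → SmallShatter m A →
      ∃ᶠ N : ℕ in atTop, ∃ n ≤ 4 * N, (N : ℝ) ^ c < rep A n := by
  obtain ⟨c, hc, h⟩ := main2 m hm
  refine ⟨c, hc, fun g hg A hA hs => h g hg A hA ?_⟩
  refine ((eventually_ge_atTop 1).mono ?_).frequently
  intro N hN
  refine ⟨1, fun _ => A, ?_, ?_, fun _ => ⟨Set.Subset.rfl, hs⟩⟩
  · have hN1 : (1 : ℝ) ≤ N := by exact_mod_cast hN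
    simpa using Real.one_le_rpow hN1 hc.le
  · intro a ha
    exact Set.mem_iUnion.2 ⟨0, ha.1⟩

end Pool.Agent.P8H34.SF
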