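import Pool.Agent.P8H34.SF.Core

set_option autoImplicit false

namespace Pool.Agent.P8H34.SF

open Finset

noncomputable section

/-- The state of the greedy choice. -/
structure St (N : ℕ) (B : Finset ℤ) (L : ℝ) (V U : Finset ℤ) : Prop where
  hV : V ⊆ Icc (0 : ℤ) N
  hU : U ⊆ Icc (0 : ℤ) N
  h1 : ∀ v ∈ V, ∀ z ∈ U, z ≠ v ∧ 1 ≤ cod N B z v ∧ (fr B (z - v) : ℝ) ≤ L
  h2 : ∀ v ∈ V, ∀ w ∈ V, v ≠ w → 1 ≤ cod N B v w ∧ (fr B (v - w) : ℝ) ≤ L
  h3 : ∀ v ∈ V, ∀ w ∈ V, v ≠ w → ∀ x ∈ Wn N, x + v ∈ B → x + w ∈ B → ∀ z ∈ U, x + z ∉ B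
  h4 : ∀ u ∈ V, ∀ v ∈ V, ∀ w ∈ V, u ≠ v → u ≠ w → v ≠ w → ∀ x ∈ Wn N, x + u ∈ B → x + v ∈ B → x + w ∉ B

lemma St.mono {N : ℕ} {B : Finset ℤ} {L L' : ℝ} {V U : Finset ℤ} (h : St N B L V U) (hL : L ≤ L') :
    St N B L' V U :=
  ⟨h.hV, h.hU, fun v hv z hz => ⟨(h.h1 v hv z hz).1, (h.h1 v hv z hz).2.1, (h.h1 v hv z hz).2.2.trans hL⟩,
    fun v hv w hw hvw => ⟨(h.h2 v hv w hw hvw).1, (h.h2 v hv w hw hvw).2.trans hL⟩, h.h3, h.h4⟩

lemma step (N : ℕ) {B : Finset ℤ} {L L' : ℝ} {V U : Finset ℤ}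
    (h : St N B L V U) (hL : L ≤ L') {y : ℤ} (hy : y ∈ U) {s : ℝ}
    (hs : s ≤ ((lt' N B U L' y).card : ℝ)) :
    ∃ U' : Finset ℤ, St N B L' (insert y V) U' ∧ y ∉ V ∧ s - V.card * L' * B.card ≤ (U'.card : ℝ) := by
  classical
  have hyV : y ∉ V := fun hv => (h.h1 y hv y hy).1 rfl
  set D : Finset ℤ := V.biUnion (fun v => ((Wn N).filter (fun x => x + v ∈ B ∧ x + y ∈ B)).biUnion
    (fun x => U.filter (fun z => x + z ∈ B))) with hD
  refine ⟨lt' N B U L' y \ D, ?_, hyV, ?_⟩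
  · have hsub : lt' N B U L' y ⊆ U := filter_subset _ _
    have hsub' : lt' N B U L' y \ D ⊆ U := sdiff_subset.trans hsub
    have key : ∀ v ∈ V, ∀ x ∈ Wn N, x + v ∈ B → x + y ∈ B → ∀ z ∈ lt' N B U L' y \ D, x + z ∉ B := by
      intro v hv x hx hxv hxy z hz hxz
      rw [mem_sdiff] at hz
      refine hz.2 ?_
      rw [hD, mem_biUnion]
      refine ⟨v, hv, ?_⟩
      rw [mem_biUnion]
      refine ⟨x, ?_, ?_⟩
      · rw [mem_filter]
        exact ⟨hx, hxv, hxy⟩
      · rw [mem_filter]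
        exact ⟨hsub hz.1, hxz⟩
    have hyy : ∀ v ∈ V, 1 ≤ cod N B y v ∧ (fr B (y - v) : ℝ) ≤ L' :=
      fun v hv => ⟨(h.h1 v hv y hy).2.1, (h.h1 v hv y hy).2.2.trans hL⟩
    refine ⟨?_, hsub'.trans h.hU, ?_, ?_, ?_, ?_⟩
    · intro v hv
      rcases mem_insert.1 hv with rfl | hv
      · exact h.hU hy
      · exact h.hV hv
    · intro v hv z hz
      rcases mem_insert.1 hv with rfl | hv
      · have hz' := (mem_sdiff.1 hz).1
        unfold lt' at hz'
        exact (mem_filter.1 hz').2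
      · exact ⟨(h.h1 v hv z (hsub' hz)).1, (h.h1 v hv z (hsub' hz)).2.1,
          (h.h1 v hv z (hsub' hz)).2.2.trans hL⟩
    · intro v hv w hw hvw
      rcases mem_insert.1 hv with hv' | hv'
      · rcases mem_insert.1 hw with hw' | hw'
        · exact absurd (hv'.trans hw'.symm) hvw
        · rw [hv']; exact hyy w hw'
      · rcases mem_insert.1 hw with hw' | hw'
        · have h5 := hyy v hv'
          rw [← fr_neg, neg_sub, cod_comm] at h5
          rw [hw']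
          exact h5
        · exact ⟨(h.h2 v hv' w hw' hvw).1, (h.h2 v hv' w hw' hvw).2.trans hL⟩
    · intro v hv w hw hvw x hx hxv hxw z hz
      rcases mem_insert.1 hv with hv' | hv'
      · rcases mem_insert.1 hw with hw' | hw'
        · exact absurd (hv'.trans hw'.symm) hvw
        · rw [hv'] at hxv
          exact key w hw' x hx hxw hxv z hz
      · rcases mem_insert.1 hw with hw' | hw'
        · rw [hw'] at hxw
          exact key v hv' x hx hxv hxw z hz
        · exact h.h3 v hv' w hw' hvw x hx hxv hxw z (hsub' hz)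
    · intro u hu v hv w hw huv huw hvw x hx hxu hxv hxw
      rcases mem_insert.1 hu with hu' | hu'
      · have hv' : v ∈ V := by
          rcases mem_insert.1 hv with hv' | hv'
          · exact absurd (hu'.trans hv'.symm) huv
          · exact hv'
        have hw' : w ∈ V := by
          rcases mem_insert.1 hw with hw' | hw'
          · exact absurd (hu'.trans hw'.symm) huw
          · exact hw'
        rw [hu'] at hxu
        exact h.h3 v hv' w hw' hvw x hx hxv hxw y hy hxu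
      · rcases mem_insert.1 hv with hv' | hv'
        · have hw' : w ∈ V := by
            rcases mem_insert.1 hw with hw' | hw'
            · exact absurd (hv'.trans hw'.symm) hvw
            · exact hw'
          rw [hv'] at hxv
          exact h.h3 u hu' w hw' huw x hx hxu hxw y hy hxv
        · rcases mem_insert.1 hw with hw' | hw'
          · rw [hw'] at hxw
            exact h.h3 u hu' v hv' huv x hx hxu hxv y hy hxw
          · exact h.h4 u hu' v hv' w hw' huv huw hvw x hx hxu hxv hxw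
  · have h5 : ((lt' N B U L' y).card : ℝ) ≤ ((lt' N B U L' y \ D).card : ℝ) + D.card := by
      have h6 : (lt' N B U L' y).card ≤ (lt' N B U L' y \ D).card + D.card := by
        have h6a : lt' N B U L' y ⊆ (lt' N B U L' y \ D) ∪ D := by
          intro z hz
          rw [mem_union, mem_sdiff]
          by_cases hzD : z ∈ D
          · exact Or.inr hzD
          · exact Or.inl ⟨hz, hzD⟩
        exact (card_le_card h6a).trans (card_union_le _ _)
      exact_mod_cast h6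
    have h7 : (D.card : ℝ) ≤ V.card * L' * B.card := by
      have h8 : (D.card : ℝ) ≤ ∑ v ∈ V, (fr B (v - y) : ℝ) * B.card := by
        have h9 : D.card ≤ ∑ v ∈ V, fr B (v - y) * B.card := by
          refine card_biUnion_le.trans (sum_le_sum (fun v hv => ?_))
          refine (card_biUnion_le_card_mul _ _ B.card (fun x _ => ?_)).trans ?_
          · refine card_le_card_of_injOn (fun z => x + z) ?_ ?_
            · intro z hz
              simp only [coe_filter, Set.mem_ofPred_eq] at hz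
              exact hz.2
            · intro a _ b _ hab
              simpa using hab
          · exact Nat.mul_le_mul_right _ (cod_le N B v y)
        exact_mod_cast h9
      refine h8.trans ?_
      have h10 : ∀ v ∈ V, (fr B (v - y) : ℝ) * B.card ≤ L' * B.card := by
        intro v hv
        refine mul_le_mul_of_nonneg_right ?_ (Nat.cast_nonneg _)
        have h11 := (h.h1 v hv y hy).2.2.trans hL
        rw [← fr_neg, neg_sub] at h11
        exact h11
      refine (sum_le_sum h10).trans ?_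
      rw [sum_const, nsmul_eq_mul]
      exact le_of_eq (by ring)
    linarith

/-- the exponents -/
def ex : ℕ → ℕ
  | 0 => 1
  | i + 1 => 3 * ex i + 6

lemma ex_mono {i j : ℕ} (h : i ≤ j) : ex i ≤ ex j := by
  induction j, h using Nat.le_induction with
  | base => exact le_rfl
  | succ k _ ih => exact ih.trans (by simp only [ex]; omega)

/-- the numerical part of the step -/
lemma num {M n n0 u Q E L : ℝ} {m e : ℕ} (hM : 0 < M) (hn0 : 0 < n0) (hn : 0 ≤ n) (hu : 0 < u) (hQ : 2 ≤ Q)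
    (hE : E ≤ Q * n0 ^ 2) (hn1 : M ≤ Q * n0 ^ 2) (hn2 : n ^ 2 ≤ M * Q) (hL : L = 4 * Q ^ (1 + 2 * e))
    (hu1 : M ≤ u * Q ^ e) (hbig : 4096 * (m : ℝ) ^ 2 * Q ^ (7 + 10 * e) ≤ M) (hm : 1 ≤ m) :
    n0 ^ 2 * u / (2 * M * L) * u * L ≤ (n0 * u) ^ 2 / M - n * u - M * E / L ∧
      M ≤ (n0 ^ 2 * u / (2 * M * L) - m * L * n) * Q ^ (3 * e + 6) := by
  have hQ0 : 0 < Q := by linarith
  have hQ1 : 1 ≤ Q := by linarith
  have hq : 0 < Q ^ e := pow_pos hQ0 _
  have hq1 : 1 ≤ Q ^ e := one_le_pow₀ hQ1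
  have hL0 : 0 < L := by rw [hL]; positivity
  have hm1 : (1 : ℝ) ≤ (m : ℝ) := by exact_mod_cast hm
  have hLe : L = 4 * (Q * (Q ^ e) ^ 2) := by rw [hL]; ring
  set q := Q ^ e with hqd
  -- consequences of `hbig`
  have hb1 : 4096 * (m : ℝ) ^ 2 * (Q ^ 7 * q ^ 10) ≤ M := by
    have : Q ^ (7 + 10 * e) = Q ^ 7 * q ^ 10 := by rw [hqd]; ring
    rw [this] at hbig; exact hbig
  have hb2 : 16 * (Q ^ 3 * q ^ 2) ≤ M := by
    have h1 : Q ^ 3 * q ^ 2 ≤ Q ^ 7 * q ^ 10 :=
      mul_le_mul (pow_le_pow_right₀ hQ1 (by norm_num))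
        (pow_le_pow_right₀ hq1 (by norm_num)) (by positivity) (by positivity)
    have h2 : (1 : ℝ) ≤ (m : ℝ) ^ 2 := one_le_pow₀ hm1
    nlinarith [mul_pos (pow_pos hQ0 7) (pow_pos hq 10)]
  have ha : 4 * M * n ≤ n0 ^ 2 * u := by
    have h1 : 4 * n * (Q * q) ≤ M := by
      have h2 : (4 * n * (Q * q)) ^ 2 ≤ M ^ 2 := by
        calc (4 * n * (Q * q)) ^ 2 = 16 * (Q ^ 2 * q ^ 2) * n ^ 2 := by ring
          _ ≤ 16 * (Q ^ 2 * q ^ 2) * (M * Q) := mul_le_mul_of_nonneg_left hn2 (by positivity)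
          _ = 16 * (Q ^ 3 * q ^ 2) * M := by ring
          _ ≤ M * M := mul_le_mul_of_nonneg_right hb2 hM.le
          _ = M ^ 2 := by ring
      exact le_of_sq_le_sq h2 hM.le
    have h3 : M * M ≤ (Q * n0 ^ 2) * (u * q) := mul_le_mul hn1 hu1 hM.le (by positivity)
    have h4 : (4 * M * n) * (Q * q) ≤ (n0 ^ 2 * u) * (Q * q) := by
      calc (4 * M * n) * (Q * q) = M * (4 * n * (Q * q)) := by ring
        _ ≤ M * M := mul_le_mul_of_nonneg_left h1 hM.le
        _ ≤ (Q * n0 ^ 2) * (u * q) := h3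
        _ = (n0 ^ 2 * u) * (Q * q) := by ring
    exact le_of_mul_le_mul_right h4 (by positivity)
  refine ⟨?_, ?_⟩
  · have e1 : n0 ^ 2 * u / (2 * M * L) * u * L = (n0 * u) ^ 2 / M / 2 := by
      field_simp
    have e2 : n * u ≤ (n0 * u) ^ 2 / M / 4 := by
      rw [div_div, le_div_iff₀ (by positivity)]
      nlinarith [mul_le_mul_of_nonneg_right ha hu.le]
    have e3 : M * E / L ≤ (n0 * u) ^ 2 / M / 4 := by
      rw [div_div, div_le_div_iff₀ hL0 (by positivity)]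
      have h2 : M ^ 2 ≤ (u * q) ^ 2 := pow_le_pow_left₀ hM.le hu1 2
      calc M * E * (M * 4) = 4 * M ^ 2 * E := by ring
        _ ≤ 4 * M ^ 2 * (Q * n0 ^ 2) := mul_le_mul_of_nonneg_left hE (by positivity)
        _ ≤ 4 * (u * q) ^ 2 * (Q * n0 ^ 2) := by
            refine mul_le_mul_of_nonneg_right ?_ (by positivity)
            linarith
        _ = (n0 * u) ^ 2 * L := by rw [hLe]; ring
    linarith
  · -- `s ≥ M / (8 Q^2 q^3)`
    have f1 : M / (8 * (Q ^ 2 * q ^ 3)) ≤ n0 ^ 2 * u / (2 * M * L) := by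
      rw [div_le_div_iff₀ (by positivity) (by positivity), hLe]
      have h1 : M * M ≤ (Q * n0 ^ 2) * (u * q) := mul_le_mul hn1 hu1 hM.le (by positivity)
      have h2 : M * (2 * M * (4 * (Q * q ^ 2))) = 8 * (Q * q ^ 2) * (M * M) := by ring
      have h3 : n0 ^ 2 * u * (8 * (Q ^ 2 * q ^ 3)) = 8 * (Q * q ^ 2) * ((Q * n0 ^ 2) * (u * q)) := by ring
      rw [h2, h3]
      exact mul_le_mul_of_nonneg_left h1 (by positivity)
    have f2 : m * L * n ≤ M / (16 * (Q ^ 2 * q ^ 3)) := by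
      rw [le_div_iff₀ (by positivity), hLe]
      have h1 : (m * (4 * (Q * q ^ 2)) * n * (16 * (Q ^ 2 * q ^ 3))) ^ 2 ≤ M ^ 2 := by
        calc (m * (4 * (Q * q ^ 2)) * n * (16 * (Q ^ 2 * q ^ 3))) ^ 2
            = 4096 * (m : ℝ) ^ 2 * (Q ^ 6 * q ^ 10) * n ^ 2 := by ring
          _ ≤ 4096 * (m : ℝ) ^ 2 * (Q ^ 6 * q ^ 10) * (M * Q) :=
              mul_le_mul_of_nonneg_left hn2 (by positivity)
          _ = (4096 * (m : ℝ) ^ 2 * (Q ^ 7 * q ^ 10)) * M := by ring
          _ ≤ M * M := mul_le_mul_of_nonneg_right hb1 hM.le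
          _ = M ^ 2 := by ring
      exact le_of_sq_le_sq h1 hM.le
    have f3 : M / (16 * (Q ^ 2 * q ^ 3)) ≤ n0 ^ 2 * u / (2 * M * L) - m * L * n := by
      have : M / (8 * (Q ^ 2 * q ^ 3)) = M / (16 * (Q ^ 2 * q ^ 3)) + M / (16 * (Q ^ 2 * q ^ 3)) := by
        field_simp; ring
      linarith
    have f4 : M ≤ M / (16 * (Q ^ 2 * q ^ 3)) * Q ^ (3 * e + 6) := by
      have h1 : Q ^ (3 * e + 6) = q ^ 3 * Q ^ 2 * Q ^ 4 := by rw [hqd]; ring
      have h2 : (16 : ℝ) ≤ Q ^ 4 := by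
        calc (16 : ℝ) = 2 ^ 4 := by norm_num
          _ ≤ Q ^ 4 := pow_le_pow_left₀ (by norm_num) hQ 4
      rw [h1, div_mul_eq_mul_div, le_div_iff₀ (by positivity)]
      calc M * (16 * (Q ^ 2 * q ^ 3)) = (M * (q ^ 3 * Q ^ 2)) * 16 := by ring
        _ ≤ (M * (q ^ 3 * Q ^ 2)) * Q ^ 4 := mul_le_mul_of_nonneg_left h2 (by positivity)
        _ = M * (q ^ 3 * Q ^ 2 * Q ^ 4) := by ring
    exact f4.trans (mul_le_mul_of_nonneg_right f3 (by positivity))

/-- the greedy choice -/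
lemma greedy (N : ℕ) {B : Finset ℤ} {Q : ℝ} (hQ : 2 ≤ Q) {m : ℕ} (hm : 1 ≤ m)
    (hE : (En B : ℝ) ≤ Q * ((B ∩ Icc (0 : ℤ) N).card : ℝ) ^ 2)
    (hn : (2 * N + 1 : ℝ) ≤ Q * ((B ∩ Icc (0 : ℤ) N).card : ℝ) ^ 2)
    (hn2 : (B.card : ℝ) ^ 2 ≤ (2 * N + 1) * Q)
    (hbig : 4096 * (m : ℝ) ^ 2 * Q ^ (7 + 10 * ex m) ≤ 2 * N + 1) (i : ℕ) (hi : i ≤ m) :
    ∃ V U : Finset ℤ, V.card = i ∧ St N B (4 * Q ^ (1 + 2 * ex i)) V U ∧
      (2 * N + 1 : ℝ) ≤ (U.card : ℝ) * Q ^ (ex i) := by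
  have hQ0 : 0 < Q := by linarith
  have hQ1 : 1 ≤ Q := by linarith
  have hM : (0 : ℝ) < 2 * N + 1 := by positivity
  set n0 : ℝ := ((B ∩ Icc (0 : ℤ) N).card : ℝ) with hn0d
  have hn0 : (0 : ℝ) < n0 := by
    rcases eq_or_lt_of_le (Nat.cast_nonneg (α := ℝ) (B ∩ Icc (0 : ℤ) N).card) with h0 | h0
    · exfalso
      rw [hn0d, ← h0] at hn
      simp at hn
      linarith
    · exact h0
  induction i with
  | zero =>
    refine ⟨∅, Icc (0 : ℤ) N, card_empty, ?_, ?_⟩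
    · exact ⟨empty_subset _, Subset.rfl, by simp, by simp, by simp, by simp⟩
    · rw [Int.card_Icc]
      have h1 : (((N : ℤ) + 1 - 0).toNat : ℝ) = N + 1 := by
        have : ((N : ℤ) + 1 - 0).toNat = N + 1 := by omega
        rw [this]; push_cast; ring
      rw [h1]
      simp only [ex, pow_one]
      nlinarith [Nat.cast_nonneg (α := ℝ) N]
  | succ i ih =>
    obtain ⟨V, U, hVc, hSt, hU⟩ := ih (by omega)
    have hu0 : (0 : ℝ) < U.card := by
      rcases eq_or_lt_of_le (Nat.cast_nonneg (α := ℝ) U.card) with h0 | h0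
      · exfalso
        rw [← h0] at hU
        simp at hU
        linarith
      · exact h0
    have hUne : U.Nonempty := by
      rw [← card_pos]; exact_mod_cast hu0
    set L : ℝ := 4 * Q ^ (1 + 2 * ex i) with hLd
    have hL0 : 0 < L := by positivity
    have hbig' : 4096 * (m : ℝ) ^ 2 * Q ^ (7 + 10 * ex i) ≤ 2 * N + 1 := by
      refine le_trans ?_ hbig
      refine mul_le_mul_of_nonneg_left ?_ (by positivity)
      have := ex_mono (i := i) (j := m) (by omega)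
      exact pow_le_pow_right₀ hQ1 (by omega)
    obtain ⟨hA, hC⟩ := num (M := 2 * N + 1) (n := B.card) (n0 := n0) (u := U.card) (Q := Q) (E := En B) (L := L)
      (m := m) (e := ex i) hM hn0 (Nat.cast_nonneg _) hu0 hQ hE hn hn2 hLd hU hbig' hm
    obtain ⟨y, hy, hys⟩ := exists_light N B hSt.hU hL0 hA hUne
    obtain ⟨U', hSt', hyV, hU'⟩ := step N hSt le_rfl hy hys
    refine ⟨insert y V, U', ?_, hSt'.mono ?_, ?_⟩
    · rw [card_insert_of_notMem hyV, hVc]
    · rw [hLd]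
      refine mul_le_mul_of_nonneg_left ?_ (by norm_num)
      exact pow_le_pow_right₀ hQ1 (by simp only [ex]; omega)
    · refine hC.trans ?_
      have h1 : ex (i + 1) = 3 * ex i + 6 := rfl
      rw [h1]
      refine mul_le_mul_of_nonneg_right ?_ (by positivity)
      refine le_trans ?_ hU'
      have h2 : (V.card : ℝ) ≤ m := by rw [hVc]; exact_mod_cast (by omega : i ≤ m)
      have h3 : (V.card : ℝ) * L * B.card ≤ m * L * B.card :=
        mul_le_mul_of_nonneg_right (mul_le_mul_of_nonneg_right h2 hL0.le) (Nat.cast_nonneg _)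
      linarith

/-- Every subset with at most two elements of some set with `m` elements is cut out by a translate. -/
theorem two_shatter (N : ℕ) {B : Finset ℤ} (hB : ∀ b ∈ B, 0 ≤ b) {Q : ℝ} (hQ : 2 ≤ Q) {m : ℕ}
    (hm : 1 ≤ m) (hE : (En B : ℝ) ≤ Q * ((B ∩ Icc (0 : ℤ) N).card : ℝ) ^ 2)
    (hn : (2 * N + 1 : ℝ) ≤ Q * ((B ∩ Icc (0 : ℤ) N).card : ℝ) ^ 2)
    (hn2 : (B.card : ℝ) ^ 2 ≤ (2 * N + 1) * Q)
    (hbig : 4096 * (m : ℝ) ^ 2 * Q ^ (7 + 10 * ex m) ≤ 2 * N + 1) :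
    ∃ Y : Finset ℤ, Y.card = m ∧ Y ⊆ Icc (0 : ℤ) N ∧ ∀ S ⊆ Y, S.card ≤ 2 →
      ∃ x : ℤ, x ≤ N ∧ S = Y.filter (fun y => x + y ∈ B) := by
  classical
  obtain ⟨V, U, hVc, hSt, -⟩ := greedy N hQ hm hE hn hn2 hbig m le_rfl
  have hQ0 : 0 < Q := by linarith
  have hQ1 : 1 ≤ Q := by linarith
  have hM : (0 : ℝ) < 2 * N + 1 := by positivity
  refine ⟨V, hVc, hSt.hV, fun S hS hS2 => ?_⟩
  have hcases : S.card = 0 ∨ S.card = 1 ∨ S.card = 2 := by omega
  rcases hcases with h0 | h1 | h2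
  · rw [card_eq_zero] at h0
    refine ⟨-(N + 1), by omega, ?_⟩
    rw [h0]
    symm
    rw [filter_eq_empty_iff]
    intro v hv hvB
    have h1 := hSt.hV hv
    have h2 := hB _ hvB
    rw [mem_Icc] at h1
    omega
  · obtain ⟨v, rfl⟩ := card_eq_one.1 h1
    have hv : v ∈ V := hS (mem_singleton_self v)
    -- the translations which hit `v` and another element
    by_contra hcon
    push Not at hcon
    have hcov : (Wn N).filter (fun x => x + v ∈ B) ⊆
        (V.erase v).biUnion (fun w => (Wn N).filter (fun x => x + v ∈ B ∧ x + w ∈ B)) := by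
      intro x hx
      rw [mem_filter] at hx
      have h3 := hcon x (mem_Icc.1 hx.1).2
      have h4 : ∃ w ∈ V, w ≠ v ∧ x + w ∈ B := by
        by_contra h5
        push Not at h5
        apply h3
        ext w
        rw [mem_singleton, mem_filter]
        constructor
        · rintro rfl; exact ⟨hv, hx.2⟩
        · rintro ⟨hw, hwB⟩
          by_contra hne
          exact h5 w hw hne hwB
      obtain ⟨w, hw, hwv, hwB⟩ := h4
      rw [mem_biUnion]
      exact ⟨w, mem_erase.2 ⟨hwv, hw⟩, mem_filter.2 ⟨hx.1, hx.2, hwB⟩⟩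
    have hc := ((card_tr N B (hSt.hV hv)).trans (card_le_card hcov)).trans card_biUnion_le
    have hc' : ((B ∩ Icc (0 : ℤ) N).card : ℝ) ≤ ∑ w ∈ V.erase v, (fr B (v - w) : ℝ) := by
      have h6 : (B ∩ Icc (0 : ℤ) N).card ≤ ∑ w ∈ V.erase v, fr B (v - w) := by
        refine hc.trans (sum_le_sum (fun w hw => ?_))
        exact cod_le N B v w
      exact_mod_cast h6
    have h7 : ∑ w ∈ V.erase v, (fr B (v - w) : ℝ) ≤ (m : ℝ) * (4 * Q ^ (1 + 2 * ex m)) := by
      have h8 : ∑ w ∈ V.erase v, (fr B (v - w) : ℝ) ≤ ∑ w ∈ V.erase v, (4 * Q ^ (1 + 2 * ex m)) := by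
        refine sum_le_sum (fun w hw => ?_)
        rw [mem_erase] at hw
        exact (hSt.h2 v hv w hw.2 (Ne.symm hw.1)).2
      refine h8.trans ?_
      rw [sum_const, nsmul_eq_mul]
      refine mul_le_mul_of_nonneg_right ?_ (by positivity)
      have : (V.erase v).card ≤ m := by rw [← hVc]; exact card_erase_le
      exact_mod_cast this
    have h9 : ((B ∩ Icc (0 : ℤ) N).card : ℝ) ≤ (m : ℝ) * (4 * Q ^ (1 + 2 * ex m)) := hc'.trans h7
    have h10 : (2 * N + 1 : ℝ) ≤ Q * ((m : ℝ) * (4 * Q ^ (1 + 2 * ex m))) ^ 2 := by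
      refine hn.trans (mul_le_mul_of_nonneg_left ?_ hQ0.le)
      exact pow_le_pow_left₀ (Nat.cast_nonneg _) h9 2
    have h11 : Q * ((m : ℝ) * (4 * Q ^ (1 + 2 * ex m))) ^ 2 = 16 * (m : ℝ) ^ 2 * Q ^ (3 + 4 * ex m) := by
      ring
    have h12 : 16 * (m : ℝ) ^ 2 * Q ^ (3 + 4 * ex m) ≤ 16 * (m : ℝ) ^ 2 * Q ^ (7 + 10 * ex m) := by
      refine mul_le_mul_of_nonneg_left (pow_le_pow_right₀ hQ1 (by omega)) (by positivity)
    have h13 : (0 : ℝ) < (m : ℝ) ^ 2 * Q ^ (7 + 10 * ex m) := by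
      have : (0 : ℝ) < m := by exact_mod_cast hm
      positivity
    nlinarith
  · obtain ⟨v, w, hvw, rfl⟩ := card_eq_two.1 h2
    have hv : v ∈ V := hS (by simp)
    have hw : w ∈ V := hS (by simp)
    have h3 := (hSt.h2 v hv w hw hvw).1
    have h3' : 0 < ((Wn N).filter (fun x => x + v ∈ B ∧ x + w ∈ B)).card := h3
    rw [card_pos] at h3'
    obtain ⟨x, hx⟩ := h3'
    rw [mem_filter] at hx
    refine ⟨x, (mem_Icc.1 hx.1).2, ?_⟩
    ext u
    rw [mem_insert, mem_singleton, mem_filter]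
    constructor
    · rintro (rfl | rfl)
      · exact ⟨hv, hx.2.1⟩
      · exact ⟨hw, hx.2.2⟩
    · rintro ⟨hu, huB⟩
      by_contra hne
      push Not at hne
      exact hSt.h4 v hv w hw u hu hvw (Ne.symm hne.1) (Ne.symm hne.2) x hx.1 hx.2.1 hx.2.2 huB

end

end Pool.Agent.P8H34.SF
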